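import Pool.Agent.H37.CNS.Stmts

/-!
# Row PTR of board `cns`: covers of `p`-groups are totally ramified
-/

set_option autoImplicit false

namespace Pool.CND

theorem ptr_thm (hN : S_NCL) (hM : S_MAX) (hS : S_SUB) : S_PTR := by
  intro p k L G _ _ _ _ _ _ ρ t P hp hc hG hρ ht
  obtain ⟨W, I, hW, -, -, -⟩ := hS k L G P ρ
  by_contra hne
  have hWt : W ≠ ⊤ := by
    intro h
    apply hne
    rw [← hW, h]
    rfl
  have hcard : Nat.card (⊤ : Subgroup G) = Nat.card G := Subgroup.card_top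
  obtain ⟨N, hWN, -, hcN, hn⟩ := hM p G ⊤ W hp (by rw [hcard]; exact hG) le_top hWt
  have hNn : N.Normal := ⟨fun n hn' g => hn g (Subgroup.mem_top g) n hn'⟩
  have hNt : N = ⊤ := hN p k L G ρ t P N hp hc hρ ht hNn (by rw [← hW]; exact hWN)
  rw [hNt] at hcN
  have hpos : 0 < Nat.card (⊤ : Subgroup G) := Nat.card_pos
  have h2 := hp.two_le
  nlinarith

end Pool.CND
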